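import Mathlib
import Pool.Agent.R439.FD.FA

set_option autoImplicit false

/-!
Exact identities for MP_fdcced_nt, Q2.
-/

namespace Pool.Agent.Helper94.FD

open Finset Pool.Agent.R439 Pool.Agent.R439.W3 Pool.Agent.R439.S4 Pool.Agent.R439.FD
open Pool.Agent.R488.Cub (gb)

/-! ### Shifted Legendre values `∑ C(m,k) C(m+k,k) (-y)^k` -/

/-- `P_m(1 - 2y)` -/
def LL (y : ℚ) (m : ℕ) : ℚ := ∑ k ∈ range (m + 1), dt m k * (-y) ^ k

theorem LL_rec (y : ℚ) (m : ℕ) : ((m : ℚ) + 2) * LL y (m + 2) -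
    (2 * m + 3) * (1 - 2 * y) * LL y (m + 1) + ((m : ℚ) + 1) * LL y m = 0 := by
  have c1 : (m : ℚ) + 1 ≠ 0 := by positivity
  have c2 : (m : ℚ) + 2 ≠ 0 := by positivity
  have h1 : ∀ k : ℕ, ((m : ℚ) + 2) * (dt (m + 2) k * (-y) ^ k) -
      (2 * m + 3) * (1 - 2 * y) * (dt (m + 1) k * (-y) ^ k) +
      ((m : ℚ) + 1) * (dt m k * (-y) ^ k) =
        -2 * (2 * (m : ℚ) + 3) * ((k + 1 : ℕ) : ℚ) ^ 2 * (dw m (k + 1) * (-y) ^ (k + 1)) /
        (((m : ℚ) + 1) * ((m : ℚ) + 2)) - -2 * (2 * (m : ℚ) + 3) * (k : ℚ) ^ 2 * (dw m k * (-y) ^ k) /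
        (((m : ℚ) + 1) * ((m : ℚ) + 2)) := by
    intro k
    have h2 := dt_lo m k
    have h3 := dt_mid m k
    have h4 := dt_hi m k
    have h5 := dw_succ m k
    rw [← sub_div, eq_div_iff (mul_ne_zero c1 c2)]
    rw [pow_succ (-y) k]
    push_cast
    linear_combination ((m : ℚ) + 2) * (-y) ^ k * h4 - (2 * m + 3) * (1 - 2 * y) * (-y) ^ k * h3 +
      ((m : ℚ) + 1) * (-y) ^ k * h2 - 2 * (2 * (m : ℚ) + 3) * y * (-y) ^ k * h5
  have h2 : ∑ k ∈ range (m + 3), (((m : ℚ) + 2) * (dt (m + 2) k * (-y) ^ k) -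
      (2 * m + 3) * (1 - 2 * y) * (dt (m + 1) k * (-y) ^ k) +
      ((m : ℚ) + 1) * (dt m k * (-y) ^ k)) = 0 := by
    rw [sum_congr rfl fun k _ => h1 k, sum_range_sub (fun k => -2 * (2 * (m : ℚ) + 3) * (k : ℚ) ^ 2 *
      (dw m k * (-y) ^ k) / (((m : ℚ) + 1) * ((m : ℚ) + 2)))]
    rw [dw, Nat.choose_eq_zero_of_lt (by omega : m + 2 < m + 3)]
    simp
  rw [sum_add_distrib, sum_sub_distrib, ← mul_sum, ← mul_sum, ← mul_sum] at h2
  have h3 : ∑ k ∈ range (m + 3), dt m k * (-y) ^ k = LL y m := by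
    rw [LL, sum_range_succ, sum_range_succ]
    have a1 : dt m (m + 1) = 0 := by rw [dt, Nat.choose_eq_zero_of_lt (by omega : m < m + 1)]; simp
    have a2 : dt m (m + 2) = 0 := by rw [dt, Nat.choose_eq_zero_of_lt (by omega : m < m + 2)]; simp
    rw [a1, a2]; ring
  have h4 : ∑ k ∈ range (m + 3), dt (m + 1) k * (-y) ^ k = LL y (m + 1) := by
    rw [LL, sum_range_succ]
    have a1 : dt (m + 1) (m + 2) = 0 := by
      rw [dt, Nat.choose_eq_zero_of_lt (by omega : m + 1 < m + 2)]; simp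
    rw [a1]; ring
  have h5 : ∑ k ∈ range (m + 3), dt (m + 2) k * (-y) ^ k = LL y (m + 2) := by
    rw [LL]
  rw [h3, h4, h5] at h2
  exact h2

theorem LL_zero (y : ℚ) : LL y 0 = 1 := by simp [LL, dt]

theorem LL_one (y : ℚ) : LL y 1 = 1 - 2 * y := by
  simp [LL, dt, sum_range_succ, Nat.choose]
  ring

/-- `P_m(-3) = (-1)^m P_m(3)` -/
theorem LL_two (m : ℕ) : LL 2 m = (-1) ^ m * DD m := by
  have key : ∀ m : ℕ, LL 2 m = (-1) ^ m * DD m ∧ LL 2 (m + 1) = (-1) ^ (m + 1) * DD (m + 1) := by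
    intro m
    induction m with
    | zero =>
      constructor
      · simp [LL, DD, dt]
      · simp [LL, DD, dt, sum_range_succ, Nat.choose]
        norm_num
    | succ m ih =>
      refine ⟨ih.2, ?_⟩
      have h1 := LL_rec 2 m
      have h2 := DD_rec m
      have c2 : (m : ℚ) + 2 ≠ 0 := by positivity
      rw [ih.1, ih.2] at h1
      apply mul_left_cancel₀ c2
      rw [show m + 1 + 1 = m + 2 by ring]
      rw [pow_succ] at h1
      rw [pow_add]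
      linear_combination h1 - (-1) ^ m * h2
  exact (key m).1

/-- `P_{2n}(0) = (-1)^n C(2n,n)/4^n` -/
theorem LL_half (n : ℕ) : LL (1 / 2) (2 * n) = (-1) ^ n * ch n := by
  induction n with
  | zero => simp [LL_zero, ch_zero]
  | succ n ih =>
    have h1 := LL_rec (1 / 2) (2 * n)
    have h2 := ch_s n
    have c2 : 2 * (n : ℚ) + 2 ≠ 0 := by positivity
    rw [show 2 * (n + 1) = 2 * n + 2 by ring]
    push_cast at h1
    rw [ih] at h1
    apply mul_left_cancel₀ c2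
    rw [pow_succ]
    linear_combination h1 + (-1) ^ n * h2

/-! ### The convolution `∑ c_i c_{m-i} 2^{m-i}` -/

def RR (m : ℕ) : ℚ := ∑ i ∈ range (m + 1), ch i * ch (m - i) * 2 ^ (m - i)
def RA (m : ℕ) : ℚ := ∑ i ∈ range (m + 1), (i : ℚ) * (ch i * ch (m - i) * 2 ^ (m - i))
def RB (m : ℕ) : ℚ := ∑ i ∈ range (m + 1), ((m : ℚ) - i) * (ch i * ch (m - i) * 2 ^ (m - i))

theorem RAB (m : ℕ) : RA m + RB m = m * RR m := by
  rw [RA, RB, RR, mul_sum, ← sum_add_distrib]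
  exact sum_congr rfl fun i _ => by ring

theorem RA_succ (m : ℕ) : 2 * RA (m + 1) = 2 * RA m + RR m := by
  rw [RA, sum_range_succ', RA, RR, mul_sum, ← sum_add_distrib]
  simp only [Nat.cast_zero, zero_mul, add_zero]
  rw [mul_sum]
  refine sum_congr rfl fun i _ => ?_
  have h := ch_s i
  rw [show m + 1 - (i + 1) = m - i by omega]
  push_cast
  linear_combination ch (m - i) * 2 ^ (m - i) * h

theorem RB_succ (m : ℕ) : RB (m + 1) = 2 * RB m + RR m := by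
  rw [RB, sum_range_succ, RB, RR, mul_sum, ← sum_add_distrib]
  simp only [sub_self, zero_mul, add_zero]
  refine sum_congr rfl fun i hi => ?_
  have hi' := mem_range.1 hi
  have h := ch_s (m - i)
  rw [Nat.cast_sub (by omega : i ≤ m)] at h
  rw [show m + 1 - i = m - i + 1 by omega, pow_succ]
  push_cast
  linear_combination 2 ^ (m - i) * ch i * h

theorem RR_rec (m : ℕ) : ((m : ℚ) + 2) * RR (m + 2) - (2 * m + 3) * (3 / 2) * RR (m + 1) +
    2 * ((m : ℚ) + 1) * RR m = 0 := by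
  have h0 := RAB m
  have h1 := RAB (m + 1)
  have h2 := RAB (m + 2)
  have a0 := RA_succ m
  have a1 := RA_succ (m + 1)
  have b0 := RB_succ m
  have b1 := RB_succ (m + 1)
  rw [show m + 1 + 1 = m + 2 by ring] at a1 b1
  push_cast at h0 h1 h2
  linear_combination (-1) * h2 + 3 * h1 - 2 * h0 + (1 / 2) * a1 - a0 + b1 - b0

theorem RR_zero : RR 0 = 1 := by simp [RR, ch_zero]

theorem RR_one : RR 1 = 3 / 2 := by
  have := ch_s 0
  have h1 : ch 1 = 1 / 2 := by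
    rw [ch_zero] at this
    push_cast at this
    linarith
  simp [RR, ch_zero, sum_range_succ, h1]
  norm_num

/-! ### The sum with `(-1/8)^k` -/

def qt2 (n k : ℕ) : ℚ := (n.choose k : ℚ) * gq n k * (-1 / 8) ^ k

def qv2 (n k : ℕ) : ℚ := ((n + 2).choose k : ℚ) * gq n k * (-1 / 8) ^ k

def QQ2 (n : ℕ) : ℚ := ∑ k ∈ range (n + 1), qt2 n k

def BB2 (n : ℚ) : ℚ := (2 * n + 3) ^ 2 * (4 * n + 3) -
  9 / 8 * ((4 * n + 5) * (4 * n + 7) * (4 * n + 3)) + (2 * n + 2) ^ 2 * (4 * n + 7)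

theorem QQ2_rec (n : ℕ) : AAn n * QQ2 (n + 2) + BB2 n * QQ2 (n + 1) + CCn n * QQ2 n = 0 := by
  have c1 : (n : ℚ) + 1 ≠ 0 := by positivity
  have c2 : (n : ℚ) + 2 ≠ 0 := by positivity
  have c3 : (n : ℚ) + 1 / 2 ≠ 0 := by positivity
  have c4 : (n : ℚ) + 1 + 1 / 2 ≠ 0 := by positivity
  have h1 : ∀ k : ℕ, AAn n * qt2 (n + 2) k + BB2 n * qt2 (n + 1) k + CCn n * qt2 n k =
      -((4 * (n : ℚ) + 3) * (4 * n + 5) * (4 * n + 7)) * ((k + 1 : ℕ) : ℚ) ^ 2 * qv2 n (k + 1) /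
        (((n : ℚ) + 2) * ((n : ℚ) + 1 / 2)) - -((4 * (n : ℚ) + 3) * (4 * n + 5) * (4 * n + 7)) *
        (k : ℚ) ^ 2 * qv2 n k / (((n : ℚ) + 2) * ((n : ℚ) + 1 / 2)) := by
    intro k
    have e1 := ch_up n k
    have e2 := ch_up (n + 1) k
    have e3 := ch_right (n + 2) k
    have e4 := gq_up n k
    have e5 := gq_up (n + 1) k
    have e6 := gb_succ (-(n : ℚ) - 1 / 2) k
    rw [show n + 1 + 1 = n + 2 by ring] at e2 e5
    have e6' : gq n (k + 1) * ((k : ℚ) + 1) = gq n k * (-(n : ℚ) - 1 / 2 - k) := e6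
    push_cast at e1 e2 e3 e5
    have a1 : (n.choose k : ℚ) = ((n + 2).choose k : ℚ) * ((n : ℚ) + 2 - k) * ((n : ℚ) + 1 - k) /
        (((n : ℚ) + 1) * (n + 2)) := by
      rw [eq_div_iff (mul_ne_zero c1 c2)]
      linear_combination ((n : ℚ) + 2) * e1 + ((n : ℚ) + 1 - k) * e2
    have a2 : ((n + 1).choose k : ℚ) = ((n + 2).choose k : ℚ) * ((n : ℚ) + 2 - k) / (n + 2) := by
      rw [eq_div_iff c2]
      linear_combination e2
    have a4 : gq (n + 1) k = gq n k * ((n : ℚ) + 1 / 2 + k) / ((n : ℚ) + 1 / 2) := by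
      rw [eq_div_iff c3, e4]
    have a5 : gq (n + 2) k = gq n k * ((n : ℚ) + 1 / 2 + k) * ((n : ℚ) + 1 + 1 / 2 + k) /
        (((n : ℚ) + 1 / 2) * ((n : ℚ) + 1 + 1 / 2)) := by
      rw [eq_div_iff (mul_ne_zero c3 c4)]
      linear_combination ((n : ℚ) + 1 / 2) * e5 + ((n : ℚ) + 1 + 1 / 2 + k) * e4
    have a6 : ((k : ℚ) + 1) ^ 2 * qv2 n (k + 1) = 1 / 8 * (((n : ℚ) + 2 - k) * ((n : ℚ) + 1 / 2 + k)) *
        qv2 n k := by
      rw [qv2, qv2, pow_succ (-1 / 8 : ℚ) k]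
      linear_combination (-1 / 8 : ℚ) * (-1 / 8) ^ k * ((k : ℚ) + 1) * gq n (k + 1) * e3 +
        (-1 / 8 : ℚ) * (-1 / 8) ^ k * ((n + 2).choose k : ℚ) * ((n : ℚ) + 2 - k) * e6'
    have a7 : ((k + 1 : ℕ) : ℚ) ^ 2 * qv2 n (k + 1) = 1 / 8 * (((n : ℚ) + 2 - k) * ((n : ℚ) + 1 / 2 + k)) *
        qv2 n k := by push_cast; exact a6
    rw [mul_assoc _ (((k + 1 : ℕ) : ℚ) ^ 2), a7, qt2, qt2, qt2, qv2, a1, a2, a4, a5, AAn, BB2, CCn]
    generalize ((n + 2).choose k : ℚ) = X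
    generalize gq n k = Y
    generalize (-1 / 8 : ℚ) ^ k = Z
    have c5 : 2 * (n : ℚ) + 1 ≠ 0 := by positivity
    have c6 : 2 * (n : ℚ) + 3 ≠ 0 := by positivity
    have b1 : (n : ℚ) + 1 / 2 = (2 * n + 1) / 2 := by ring
    have b2 : (n : ℚ) + 1 + 1 / 2 = (2 * n + 3) / 2 := by ring
    rw [b2, b1]
    field_simp
    ring
  have h2 : ∑ k ∈ range (n + 3), (AAn n * qt2 (n + 2) k + BB2 n * qt2 (n + 1) k + CCn n * qt2 n k) = 0 := by
    rw [sum_congr rfl fun k _ => h1 k, sum_range_sub (fun k =>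
      -((4 * (n : ℚ) + 3) * (4 * n + 5) * (4 * n + 7)) * (k : ℚ) ^ 2 * qv2 n k /
        (((n : ℚ) + 2) * ((n : ℚ) + 1 / 2)))]
    rw [qv2, Nat.choose_eq_zero_of_lt (by omega : n + 2 < n + 3)]
    simp
  rw [sum_add_distrib, sum_add_distrib, ← mul_sum, ← mul_sum, ← mul_sum] at h2
  have h3 : ∑ k ∈ range (n + 3), qt2 n k = QQ2 n := by
    rw [QQ2, sum_range_succ, sum_range_succ]
    have a1 : qt2 n (n + 1) = 0 := by rw [qt2, Nat.choose_eq_zero_of_lt (by omega : n < n + 1)]; simp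
    have a2 : qt2 n (n + 2) = 0 := by rw [qt2, Nat.choose_eq_zero_of_lt (by omega : n < n + 2)]; simp
    rw [a1, a2]; ring
  have h4 : ∑ k ∈ range (n + 3), qt2 (n + 1) k = QQ2 (n + 1) := by
    rw [QQ2, sum_range_succ]
    have a1 : qt2 (n + 1) (n + 2) = 0 := by
      rw [qt2, Nat.choose_eq_zero_of_lt (by omega : n + 1 < n + 2)]; simp
    rw [a1]; ring
  rw [h3, h4] at h2
  exact h2

/-- `U_n = 2^{-n} R_{2n}` satisfies the same recurrence -/
theorem RR_two (n : ℕ) : AAn n * RR (2 * (n + 2)) + 2 * BB2 n * RR (2 * (n + 1)) +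
    4 * CCn n * RR (2 * n) = 0 := by
  have h0 := RR_rec (2 * n)
  have h1 := RR_rec (2 * n + 1)
  have h2 := RR_rec (2 * n + 2)
  rw [show 2 * (n + 2) = 2 * n + 2 + 2 by ring, show 2 * (n + 1) = 2 * n + 2 by ring, AAn, BB2, CCn]
  rw [show 2 * n + 1 + 2 = 2 * n + 2 + 1 by ring, show 2 * n + 1 + 1 = 2 * n + 2 by ring] at h1
  push_cast at h0 h1 h2
  linear_combination (2 * (n : ℚ) + 3) * (4 * n + 3) * h2 +
    3 / 2 * (4 * (n : ℚ) + 7) * (4 * n + 3) * h1 +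
    2 * (2 * (n : ℚ) + 2) * (4 * n + 7) * h0

theorem QQ2_RR (n : ℕ) : 2 ^ n * QQ2 n = RR (2 * n) := by
  have key : ∀ n : ℕ, 2 ^ n * QQ2 n = RR (2 * n) ∧ 2 ^ (n + 1) * QQ2 (n + 1) = RR (2 * (n + 1)) := by
    intro n
    induction n with
    | zero =>
      constructor
      · simp [QQ2, RR, qt2, gq, gb, ch_zero]
      · have h := RR_rec 0
        rw [RR_zero, RR_one] at h
        norm_num at h
        have h2 : RR (2 * (0 + 1)) = 19 / 8 := by
          norm_num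
          linarith
        rw [h2]
        simp [QQ2, qt2, gq, gb, sum_range_succ, prod_range_succ, Nat.choose]
        norm_num
    | succ n ih =>
      refine ⟨ih.2, ?_⟩
      have h1 := QQ2_rec n
      have h2 := RR_two n
      rw [← ih.1, ← ih.2] at h2
      have h3 : AAn n ≠ 0 := by rw [AAn]; positivity
      apply mul_left_cancel₀ h3
      rw [show n + 1 + 1 = n + 2 by ring, pow_add]
      rw [pow_add] at h2
      linear_combination 4 * 2 ^ n * h1 - h2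
  exact (key n).1

end Pool.Agent.Helper94.FD
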