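import Mathlib
import Pool.Agent.R439.FD.FC
import Pool.Agent.Helper94.FD.A

set_option autoImplicit false

/-!
Congruences modulo `p^2` for MP_fdcced_nt, Q2.
-/

namespace Pool.Agent.Helper94.FDB

open Finset Pool.Agent.R439.W3 Pool.Agent.R439.S4 Pool.Agent.R439.PL
  Pool.Agent.R439.PL.S4 Pool.Agent.R439.FD Pool.Agent.R439.PL.FD Pool.Agent.Helper94.FD
open Pool.Agent.R439 (ch ch_zero ch_succ)
open Pool.Agent.R488.Cub (gb H prod1 H_sub H_mem prodH prod_choose)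

variable {p n : ℕ} [hp : Fact p.Prime]

theorem four_ch (n : ℕ) : (4 : ℚ) ^ n * ch n = ((2 * n).choose n : ℚ) := by
  rw [← Nat.centralBinom_eq_two_mul_choose]
  induction n with
  | zero => simp [ch_zero]
  | succ n ih =>
    have h1 := Nat.succ_mul_centralBinom_succ n
    have h2 := ch_s n
    have h3 : ((n : ℚ) + 1) * (Nat.centralBinom (n + 1) : ℚ) =
        2 * (2 * n + 1) * (Nat.centralBinom n : ℚ) := by exact_mod_cast h1
    have h4 : (n : ℚ) + 1 ≠ 0 := by positivity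
    apply mul_left_cancel₀ h4
    rw [h3, ← ih, pow_succ]
    linear_combination 2 * 4 ^ n * h2

/-- the sum of the problem -/
def SQ2 (p : ℕ) : ℚ := ∑ k ∈ range p, gb (-1 / 4) k ^ 2 * (-1 / 8) ^ k

theorem m8_mem (hpn : p = 4 * n + 1) : (-1 / 8 : ℚ) ∈ Zp p := by
  have u2 := unit2 hpn
  have u8 := (u2.mul u2).mul u2
  have e : (-1 / 8 : ℚ) = -(2 * 2 * 2 : ℚ)⁻¹ := by norm_num
  rw [e]
  exact neg_mem u8.2.2

/-- step 1 -/
theorem SQ2_QQ2 (hpn : p = 4 * n + 1) : EQ p 2 (SQ2 p) (QQ2 n) := by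
  have hn := hn0 hpn
  have e1 : QQ2 n = ∑ k ∈ range p, gb (n : ℚ) k * gb (-(n : ℚ) - 1 / 2) k * (-1 / 8) ^ k := by
    rw [QQ2]
    have h9 : p = n + 1 + 3 * n := by omega
    conv_rhs => rw [h9, sum_range_add]
    have h0 : ∑ x ∈ range (3 * n), gb (n : ℚ) (n + 1 + x) * gb (-(n : ℚ) - 1 / 2) (n + 1 + x) *
        (-1 / 8) ^ (n + 1 + x) = 0 := by
      refine sum_eq_zero fun x _ => ?_
      rw [gb_choose, Nat.choose_eq_zero_of_lt (by omega : n < n + 1 + x)]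
      simp
    rw [h0, add_zero]
    refine sum_congr rfl fun k _ => ?_
    rw [qt2, gq, gb_choose]
  rw [e1, SQ2]
  refine EQ.sum fun k hk => ?_
  have hk' := mem_range.1 hk
  have u2 := unit2 hpn
  have u4 : U p (4 : ℚ) := by
    have := u2.mul u2
    norm_num at this
    exact this
  have uk := U_fac (p := p) hk'
  have h1 : EQ p 2 (∏ i ∈ range k, ((-1 / 4 - (i : ℚ)) ^ 2)) (∏ i ∈ range k, (((n : ℚ) - i) *
      (-(n : ℚ) - 1 / 2 - i))) := by
    refine EQ.prod fun i _ => ?_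
    have m1 : (-1 / 4 - (i : ℚ)) ∈ Zp p := by
      refine sub_mem ?_ (nat_mem i)
      rw [div_eq_mul_inv]
      exact mul_mem (neg_mem (one_mem _)) u4.2.2
    have m2 : ((n : ℚ) - i) ∈ Zp p := sub_mem (nat_mem n) (nat_mem i)
    have m3 : (-(n : ℚ) - 1 / 2 - i) ∈ Zp p := by
      refine sub_mem (sub_mem (neg_mem (nat_mem n)) ?_) (nat_mem i)
      rw [one_div]; exact u2.2.2
    refine ⟨pow_mem m1 2, mul_mem m2 m3, (4⁻¹ : ℚ) ^ 2, pow_mem u4.2.2 2, ?_⟩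
    have h2 : (p : ℚ) = 4 * n + 1 := by exact_mod_cast hpn
    rw [h2]
    ring
  have h2 := (h1.mul (EQ.refl (k := 2) (uk.inv.pow 2).2.1)).mul
    (EQ.refl (k := 2) (pow_mem (m8_mem hpn) k))
  have e2 : (∏ i ∈ range k, ((-1 / 4 - (i : ℚ)) ^ 2)) * ((k.factorial : ℚ)⁻¹) ^ 2 * (-1 / 8 : ℚ) ^ k =
      gb (-1 / 4) k ^ 2 * (-1 / 8) ^ k := by
    rw [gb, prod_pow]
    ring
  have e3 : (∏ i ∈ range k, (((n : ℚ) - i) * (-(n : ℚ) - 1 / 2 - i))) * ((k.factorial : ℚ)⁻¹) ^ 2 *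
      (-1 / 8 : ℚ) ^ k = gb (n : ℚ) k * gb (-(n : ℚ) - 1 / 2) k * (-1 / 8) ^ k := by
    rw [gb, gb, prod_mul_distrib]
    ring
  rw [e2, e3] at h2
  exact h2

/-- `∑ c_k² y^k` -/
def AY (y : ℚ) (m : ℕ) : ℚ := ∑ k ∈ range (m + 1), ch k ^ 2 * y ^ k

/-- `P_m(1-2y)` and `∑ c_k² y^k` -/
theorem LL_AY {m : ℕ} (hpm : p = 2 * m + 1) {y : ℚ} (hy : y ∈ Zp p) : EQ p 2 (LL y m) (AY y m) := by
  rw [LL, AY]
  refine EQ.sum fun k hk => ?_
  have hk' := mem_range.1 hk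
  rw [dt_eq]
  have h1 : EQ p 2 (∏ t ∈ range k, (1 - ((2 * (m : ℚ) + 1) / (2 * (t : ℚ) + 1)) ^ 2))
      (∏ t ∈ range k, (1 : ℚ)) := by
    refine EQ.prod fun t ht => ?_
    have ht' := mem_range.1 ht
    have u := U_nat (p := p) (k := 2 * t + 1) (by omega) (by omega)
    push_cast at u
    have h2 : (2 * (m : ℚ) + 1) = p := by rw [hpm]; push_cast; ring
    rw [h2, div_pow, div_eq_mul_inv]
    have u2 := (u.pow 2).inv
    refine ⟨sub_mem (one_mem _) (mul_mem (pow_mem p_mem 2) u2.2.1), one_mem _,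
      -((2 * (t : ℚ) + 1) ^ 2)⁻¹, neg_mem u2.2.1, ?_⟩
    ring
  rw [prod_const_one] at h1
  have h3 := ((EQ.refl (k := 2) (mul_mem (pow_mem (neg_mem (one_mem (Zp p))) k)
    (pow_mem (ch_U hpm (by omega : k ≤ m)).2.1 2))).mul h1).mul (EQ.refl (k := 2)
      (pow_mem (neg_mem hy) k))
  have e1 : (-1 : ℚ) ^ k * ch k ^ 2 * 1 * (-y) ^ k = ch k ^ 2 * y ^ k := by
    have : (-y) ^ k = (-1) ^ k * y ^ k := by rw [← mul_pow]; norm_num
    rw [this]
    have h4 : (-1 : ℚ) ^ k * (-1) ^ k = 1 := by rw [← mul_pow]; norm_num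
    linear_combination ch k ^ 2 * y ^ k * h4
  rw [e1] at h3
  exact h3

/-- `c_m (1 + (p/2) H_m) ≡ (-1)^m` -/
theorem ch_top {m : ℕ} (hpm : p = 2 * m + 1) (hm : 0 < m) :
    EQ p 2 (ch m * (1 + p * (2 : ℚ)⁻¹ * H m)) ((-1) ^ m) := by
  have u2 : U p (2 : ℚ) := by
    have := U_nat (p := p) (k := 2) (by omega) (by omega)
    exact_mod_cast this
  have h0 := prod_B m
  have hpq : (2 * (m : ℚ) + 1) = p := by rw [hpm]; push_cast; ring
  rw [hpq] at h0
  have hH := H_mem (p := p) (m := m) (by omega)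
  have hI := p_half_I (p := p) u2 hH
  have uu : ∀ i : ℕ, i < m → U p (2 * (i : ℚ) + 2) := by
    intro i hi
    have := U_nat (p := p) (k := 2 * (i + 1)) (by omega) (by omega)
    push_cast at this
    have e : 2 * (i : ℚ) + 2 = 2 * ((i : ℚ) + 1) := by ring
    rw [e]; exact this
  have h1 := prod1 (p := p) (s := range m) (e := fun j : ℕ => 2 * (j : ℚ) + 2) (δ := (p : ℚ))
    (fun i hi => uu i (mem_range.1 hi)) I_p
  have e2 : ∑ j ∈ range m, (2 * (j : ℚ) + 2)⁻¹ = (2 : ℚ)⁻¹ * H m := by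
    rw [H, mul_sum]
    refine sum_congr rfl fun j _ => ?_
    rw [one_div, ← mul_inv]
    congr 1
    ring
  rw [e2] at h1
  have uP : U p (∏ j ∈ range m, (2 * (j : ℚ) + 2)) := U.prod fun j hj => uu j (mem_range.1 hj)
  have h2 : (∏ j ∈ range m, (2 * (j : ℚ) + 2)) * ((-1) ^ m * ch m) =
      ∏ j ∈ range m, (2 * (j : ℚ) + 2 - p) := by
    rw [← h0, ← prod_mul_distrib]
    refine prod_congr rfl fun j _ => ?_
    have c : 2 * (j : ℚ) + 2 ≠ 0 := by positivity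
    field_simp
  rw [← h2] at h1
  have h3 : I p 2 ((-1) ^ m * ch m - (1 - p * ((2 : ℚ)⁻¹ * H m))) := by
    have := h1.2.2
    rw [← mul_sub] at this
    exact uP.cancel this
  have hs : (-1 : ℚ) ^ m * (-1) ^ m = 1 := by rw [← mul_pow]; norm_num
  have ms : (-1 : ℚ) ^ m ∈ Zp p := pow_mem (neg_mem (one_mem _)) m
  have mc := (ch_U hpm (le_refl m)).2.1
  refine ⟨mul_mem mc (add_mem (one_mem _) hI.mem), ms, ?_⟩
  have h4 := (h3.mulR (mul_mem ms (add_mem (one_mem _) hI.mem)))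
  have h5 := (hI.mul hI).mulL ms
  have h6 := h4.sub h5
  convert h6 using 1
  linear_combination (-(ch m * (1 + p * (2 : ℚ)⁻¹ * H m))) * hs

/-- the symmetric weight -/
def ww (m i : ℕ) : ℚ := 2 ^ (m - i) + 2 ^ i

theorem ww_mem (u2 : U p (2 : ℚ)) (m i : ℕ) : ww m i ∈ Zp p :=
  add_mem (pow_mem u2.2.1 _) (pow_mem u2.2.1 _)

/-- the antisymmetric part -/
theorem anti {m : ℕ} (hpm : p = 2 * m + 1) (hm : 0 < m) :
    I p 1 (∑ i ∈ range (m + 1), ww m i * (ch i ^ 2 * (H i - H (m - i)))) := by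
  have u2 : U p (2 : ℚ) := by
    have := U_nat (p := p) (k := 2) (by omega) (by omega)
    exact_mod_cast this
  have hHm : ∀ k, k ≤ m → H k ∈ Zp p := fun k hk => H_mem (by omega)
  have r1 := sum_range_reflect (fun i => ww m i * (ch i ^ 2 * (H i - H (m - i)))) (m + 1)
  have r2 : EQ p 1 (∑ j ∈ range (m + 1), ww m (m + 1 - 1 - j) * (ch (m + 1 - 1 - j) ^ 2 *
      (H (m + 1 - 1 - j) - H (m - (m + 1 - 1 - j)))))
      (∑ j ∈ range (m + 1), -(ww m j * (ch j ^ 2 * (H j - H (m - j))))) := by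
    refine EQ.sum fun j hj => ?_
    have hj' := mem_range.1 hj
    rw [show m + 1 - 1 - j = m - j by omega, show m - (m - j) = j by omega]
    have e : ww m (m - j) = ww m j := by
      rw [ww, ww, show m - (m - j) = j by omega, add_comm]
    rw [e]
    have h6 := (EQ.refl (k := 1) (ww_mem u2 m j)).mul ((ch_refl hpm (by omega : j ≤ m)).mul
      (EQ.refl (k := 1) (sub_mem (hHm (m - j) (by omega)) (hHm j (by omega)))))
    have e2 : -(ww m j * (ch j ^ 2 * (H j - H (m - j)))) =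
      ww m j * (ch j ^ 2 * (H (m - j) - H j)) := by ring
    rw [e2]
    exact h6
  rw [r1, sum_neg_distrib] at r2
  have r3 := r2.2.2
  have e : (∑ i ∈ range (m + 1), ww m i * (ch i ^ 2 * (H i - H (m - i)))) -
      -∑ i ∈ range (m + 1), ww m i * (ch i ^ 2 * (H i - H (m - i))) =
      2 * ∑ i ∈ range (m + 1), ww m i * (ch i ^ 2 * (H i - H (m - i))) := by ring
  rw [e] at r3
  exact u2.cancel r3

/-- the average of the two expansions -/
theorem RR_main {m : ℕ} (hpm : p = 2 * m + 1) (hm : 0 < m) :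
    EQ p 2 (2 * RR m) (ch m * (1 + p * (2 : ℚ)⁻¹ * H m) * (2 ^ m * AY (1 / 2) m + AY 2 m)) := by
  have u2 : U p (2 : ℚ) := by
    have := U_nat (p := p) (k := 2) (by omega) (by omega)
    exact_mod_cast this
  have hHm : ∀ k, k ≤ m → H k ∈ Zp p := fun k hk => H_mem (by omega)
  have hch : ∀ k, k ≤ m → ch k ∈ Zp p := fun k hk => (ch_U hpm hk).2.1
  have h1 : EQ p 2 (RR m) (∑ i ∈ range (m + 1), ch i * (ch m * ch i * (1 + p * (2 : ℚ)⁻¹ *
      (H m - H (m - i) + H i))) * 2 ^ (m - i)) := by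
    rw [RR]
    refine EQ.sum fun i hi => ?_
    have hi' := mem_range.1 hi
    exact ((EQ.refl (hch i (by omega))).mul (ch_exp hpm (by omega) hm)).mul
      (EQ.refl (pow_mem u2.2.1 _))
  have h2 : EQ p 2 (RR m) (∑ i ∈ range (m + 1), (ch m * ch i * (1 + p * (2 : ℚ)⁻¹ *
      (H m - H (m - i) + H i))) * ch i * 2 ^ i) := by
    have e : RR m = ∑ i ∈ range (m + 1), ch (m - i) * ch i * 2 ^ i := by
      rw [RR, ← sum_range_reflect]
      refine sum_congr rfl fun i hi => ?_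
      have hi' := mem_range.1 hi
      rw [show m + 1 - 1 - i = m - i by omega, show m - (m - i) = i by omega]
    rw [e]
    refine EQ.sum fun i hi => ?_
    have hi' := mem_range.1 hi
    exact ((ch_exp hpm (by omega) hm).mul (EQ.refl (hch i (by omega)))).mul
      (EQ.refl (pow_mem u2.2.1 _))
  have h3 := h1.add h2
  have e0 : RR m + RR m = 2 * RR m := by ring
  have e1 : (2 : ℚ) ^ m * AY (1 / 2) m = ∑ i ∈ range (m + 1), ch i ^ 2 * 2 ^ (m - i) := by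
    rw [AY, mul_sum]
    refine sum_congr rfl fun i hi => ?_
    have hi' := mem_range.1 hi
    obtain ⟨j, rfl⟩ : ∃ j, m = i + j := ⟨m - i, by omega⟩
    rw [show i + j - i = j by omega, pow_add]
    have : (2 : ℚ) ^ i * (1 / 2) ^ i = 1 := by rw [← mul_pow]; norm_num
    linear_combination 2 ^ j * ch i ^ 2 * this
  have e2 : ∑ i ∈ range (m + 1), ch i * (ch m * ch i * (1 + p * (2 : ℚ)⁻¹ *
      (H m - H (m - i) + H i))) * 2 ^ (m - i) + ∑ i ∈ range (m + 1), (ch m * ch i *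
      (1 + p * (2 : ℚ)⁻¹ * (H m - H (m - i) + H i))) * ch i * 2 ^ i =
      ch m * (1 + p * (2 : ℚ)⁻¹ * H m) * (2 ^ m * AY (1 / 2) m + AY 2 m) +
      p * (∑ i ∈ range (m + 1), ww m i * (ch i ^ 2 * (H i - H (m - i)))) * (ch m * (2 : ℚ)⁻¹) := by
    rw [e1, AY, ← sum_add_distrib, ← sum_add_distrib, mul_sum, mul_sum, sum_mul, ← sum_add_distrib]
    refine sum_congr rfl fun i _ => ?_
    rw [ww]
    ring
  rw [e0, e2] at h3
  have h4 := ((I_p (p := p)).mul (anti hpm hm)).mulR (mul_mem (hch m (le_refl m)) u2.2.2)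
  have mAY : ∀ y ∈ Zp p, AY y m ∈ Zp p := fun y hy => sum_mem fun k hk =>
    mul_mem (pow_mem (hch k (by have := mem_range.1 hk; omega)) 2) (pow_mem hy k)
  have m12 : (1 / 2 : ℚ) ∈ Zp p := by rw [one_div]; exact u2.2.2
  refine h3.trans ⟨h3.2.1, mul_mem (mul_mem (hch m (le_refl m)) (add_mem (one_mem _)
    (p_half_I u2 (hHm m (le_refl m))).mem)) (add_mem (mul_mem (pow_mem u2.2.1 m)
      (mAY _ m12)) (mAY _ u2.2.1)), ?_⟩
  rw [add_sub_cancel_left]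
  exact h4

/-- the small quantity `(p/4) (H_n - H_{2n})` -/
def ee (p n : ℕ) : ℚ := p * (4 : ℚ)⁻¹ * (H n - H (2 * n))

theorem u4 (hpn : p = 4 * n + 1) : U p (4 : ℚ) := by
  have u2 := unit2 hpn
  have := u2.mul u2
  norm_num at this
  exact this

theorem ee_I (hpn : p = 4 * n + 1) : I p 1 (ee p n) := by
  have m1 := H_mem (p := p) (m := n) (by omega)
  have m2 := H_mem (p := p) (m := 2 * n) (by omega)
  have := (I_p (p := p)).mulR (mul_mem (u4 hpn).2.2 (sub_mem m1 m2))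
  rwa [← mul_assoc] at this

/-- `R_{2n} ≡ (-1)^n C(2n,n) (1 + (p/4)(H_n - H_{2n}))` -/
theorem RR_val (hpn : p = 4 * n + 1) : EQ p 2 (RR (2 * n))
    ((-1) ^ n * ((2 * n).choose n : ℚ) * (1 + ee p n)) := by
  have hn := hn0 hpn
  have u2 := unit2 hpn
  have hpm : p = 2 * (2 * n) + 1 := by omega
  have h1 := RR_main hpm (by omega)
  have h2 := ch_top hpm (by omega)
  have e1 : (-1 : ℚ) ^ (2 * n) = 1 := by rw [pow_mul]; norm_num
  rw [e1] at h2
  have m12 : (1 / 2 : ℚ) ∈ Zp p := by rw [one_div]; exact u2.2.2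
  have a1 := LL_AY hpm m12
  have a2 := LL_AY hpm (p := p) u2.2.1
  rw [LL_half] at a1
  rw [LL_two, e1, one_mul] at a2
  have a3 := (DD_TT hpm).trans (TT_val hpn)
  have a4 := a2.symm.trans a3
  have ms : (-1 : ℚ) ^ n ∈ Zp p := pow_mem (neg_mem (one_mem _)) n
  have mC : ((2 * n).choose n : ℚ) ∈ Zp p := nat_mem _
  have m2n : (2 : ℚ) ^ (2 * n) ∈ Zp p := pow_mem u2.2.1 _
  have h3 := h2.mul (((EQ.refl (k := 2) m2n).mul a1.symm).add a4)
  have h4 := h1.trans h3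
  have hch := four_ch n
  have e2 : (2 : ℚ) ^ (2 * n) * ((-1) ^ n * ch n) = (-1) ^ n * ((2 * n).choose n : ℚ) := by
    rw [← hch, pow_mul]; norm_num; ring
  rw [e2] at h4
  have e3 : 1 * ((-1 : ℚ) ^ n * ((2 * n).choose n : ℚ) + (-1) ^ n * ((2 * n).choose n : ℚ) *
      (1 + p * (2 : ℚ)⁻¹ * (H n - H (2 * n)))) =
      2 * ((-1) ^ n * ((2 * n).choose n : ℚ) * (1 + ee p n)) := by
    rw [ee]; ring
  rw [e3] at h4
  have mR : RR (2 * n) ∈ Zp p := sum_mem fun k hk => mul_mem (mul_mem (ch_U hpm (by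
    have := mem_range.1 hk; omega)).2.1 (ch_U hpm (by omega)).2.1) (pow_mem u2.2.1 _)
  refine ⟨mR, mul_mem (mul_mem ms mC) (add_mem (one_mem _) (ee_I hpn).mem), ?_⟩
  have h5 := h4.2.2
  rw [← mul_sub] at h5
  exact u2.cancel h5

/-- `4^n ≡ (-1)^n (1 - (p/2)(H_n - H_{2n}))` -/
theorem four_pow (hpn : p = 4 * n + 1) : EQ p 2 ((4 : ℚ) ^ n) ((-1) ^ n * (1 - 2 * ee p n)) := by
  have hn := hn0 hpn
  have u2 := unit2 hpn
  have hpm : p = 2 * (2 * n) + 1 := by omega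
  have h1 := ch_two hpn
  have h2 := ch_top hpm (by omega)
  have e1 : (-1 : ℚ) ^ (2 * n) = 1 := by rw [pow_mul]; norm_num
  rw [e1] at h2
  have m1 := H_mem (p := p) (m := n) (by omega)
  have m2 := H_mem (p := p) (m := 2 * n) (by omega)
  have ha := p_half_I (p := p) u2 m1
  have hb := p_half_I (p := p) u2 m2
  have hch := (four_ch n).symm
  have uc := ch_U (p := p) (m := 2 * n) (by omega) (by omega : n ≤ 2 * n)
  have ms : (-1 : ℚ) ^ n ∈ Zp p := pow_mem (neg_mem (one_mem _)) n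
  have m4 : (4 : ℚ) ^ n ∈ Zp p := pow_mem (u4 hpn).2.1 n
  rw [hch] at h1
  -- `4^n c_n c_{2n} (1 + b) ≡ (-1)^n c_n (1 - a)(1 + b)`
  have h3 := h1.mul (EQ.refl (k := 2) (add_mem (one_mem (Zp p)) hb.mem))
  have h4 := (EQ.refl (k := 2) (mul_mem m4 uc.2.1)).mul h2
  have e2 : 4 ^ n * ch n * (ch (2 * n) * (1 + p * (2 : ℚ)⁻¹ * H (2 * n))) =
      4 ^ n * ch n * ch (2 * n) * (1 + p * (2 : ℚ)⁻¹ * H (2 * n)) := by ring
  rw [e2] at h4
  have h5 := h4.symm.trans h3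
  have h6 : I p 2 (ch n * (4 ^ n - (-1) ^ n * (1 - p * (2 : ℚ)⁻¹ * H n) *
      (1 + p * (2 : ℚ)⁻¹ * H (2 * n)))) := by
    have := h5.2.2
    convert this using 1
    ring
  have h7 := uc.cancel h6
  refine ⟨m4, mul_mem ms (sub_mem (one_mem _) (mul_mem u2.2.1 (ee_I hpn).mem)), ?_⟩
  have h8 := h7.sub ((ha.mul hb).mulL ms)
  convert h8 using 1
  rw [ee]
  ring

/-- the sum is `≡ 2^{-n} (-1)^n C(2n,n) (1 + e)` -/
theorem SQ2_val (hpn : p = 4 * n + 1) : EQ p 2 ((2 : ℚ) ^ n * SQ2 p)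
    ((-1) ^ n * ((2 * n).choose n : ℚ) * (1 + ee p n)) := by
  have u2 := unit2 hpn
  have h1 := (EQ.refl (k := 2) (pow_mem u2.2.1 n)).mul (SQ2_QQ2 hpn)
  rw [QQ2_RR] at h1
  exact h1.trans (RR_val hpn)

/-- the binomial coefficient in terms of `2x - p/(2x)` -/
theorem CC_val (hpn : p = 4 * n + 1) {x y : ℤ} (h : (p : ℤ) = x ^ 2 + y ^ 2) (hx : x % 4 = 1) :
    EQ p 2 (((2 * n).choose n : ℚ) * (1 + 2 * ee p n)) (2 * (x : ℚ) - p / (2 * x)) := by
  have s0 := SQ_val hpn h hx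
  have s1 := SQ_QQ hpn
  rw [QQ_DD] at s1
  have s2 := DD_TT (p := p) (m := 2 * n) (by omega)
  have s3 := TT_val hpn
  have s4 := ((s1.trans s2).trans s3).symm.trans s0
  have ms : (-1 : ℚ) ^ n ∈ Zp p := pow_mem (neg_mem (one_mem _)) n
  have hs : (-1 : ℚ) ^ n * (-1) ^ n = 1 := by rw [← mul_pow]; norm_num
  have s5 := (EQ.refl (k := 2) ms).mul s4
  have e1 : (-1 : ℚ) ^ n * ((-1) ^ n * ((2 * n).choose n : ℚ) *
      (1 + p * (2 : ℚ)⁻¹ * (H n - H (2 * n)))) = ((2 * n).choose n : ℚ) * (1 + 2 * ee p n) := by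
    rw [ee]
    linear_combination ((2 * n).choose n : ℚ) * (1 + p * (2 : ℚ)⁻¹ * (H n - H (2 * n))) * hs
  have e2 : (-1 : ℚ) ^ n * ((-1) ^ n * (2 * (x : ℚ) - p / (2 * x))) = 2 * (x : ℚ) - p / (2 * x) := by
    linear_combination (2 * (x : ℚ) - p / (2 * x)) * hs
  rw [e1, e2] at s5
  exact s5

end Pool.Agent.Helper94.FDB
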