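import Mathlib

set_option autoImplicit false

/-!
The quartic character of `2` modulo `p = x^2 + y^2`.
-/

namespace Pool.Agent.Helper94.FDC

open NumberTheorySymbols ZMod

/-- `J(|a| | p) = J(a | p)` for `p ≡ 1 (mod 4)` -/
theorem jac_abs {p : ℕ} (h4 : p % 4 = 1) (a : ℤ) : J(a | p) = J((a.natAbs : ℤ) | p) := by
  rcases Int.natAbs_eq a with h | h
  · rw [← h]
  · have : a = -1 * (a.natAbs : ℤ) := by omega
    conv_lhs => rw [this]
    rw [jacobiSym.mul_left, jacobiSym.at_neg_one (by rw [Nat.odd_iff]; omega),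
      ZMod.χ₄_nat_one_mod_four h4, one_mul]

theorem cop {p : ℕ} (hp : p.Prime) {x y : ℤ} (h : (p : ℤ) = x ^ 2 + y ^ 2) : IsCoprime x y := by
  rw [Int.isCoprime_iff_gcd_eq_one]
  obtain ⟨a, ha⟩ := Int.gcd_dvd_left x y
  obtain ⟨b, hb⟩ := Int.gcd_dvd_right x y
  set g := Int.gcd x y with hg
  have h1 : (p : ℤ) = (g : ℤ) * ((g : ℤ) * (a ^ 2 + b ^ 2)) := by
    rw [h]
    nth_rewrite 1 [ha]
    nth_rewrite 1 [hb]
    ring
  have h2 : g ∣ p := by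
    have : (g : ℤ) ∣ (p : ℤ) := ⟨_, h1⟩
    exact_mod_cast this
  rcases (Nat.dvd_prime hp).1 h2 with h3 | h3
  · exact h3
  · exfalso
    rw [h3] at h1
    have hp0 : (p : ℤ) ≠ 0 := by exact_mod_cast hp.ne_zero
    have h4 : (p : ℤ) * (a ^ 2 + b ^ 2) = 1 := by
      apply mul_left_cancel₀ hp0
      rw [← h1]; ring
    have h5 : (p : ℤ) ∣ 1 := ⟨_, h4.symm⟩
    have h6 : p ∣ 1 := by exact_mod_cast h5
    exact hp.one_lt.ne' (Nat.dvd_one.1 h6)

theorem jac_sq {a : ℤ} {m : ℕ} {b : ℤ} (hm : (m : ℤ) ∣ b - a ^ 2) (hc : IsCoprime a (m : ℤ)) :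
    J(b | m) = 1 := by
  rw [← jacobiSym.sq_one' (Int.isCoprime_iff_gcd_eq_one.1 hc)]
  apply jacobiSym.mod_left'
  exact (Int.modEq_iff_dvd.2 hm).symm

theorem cop_abs {a b : ℤ} (h : IsCoprime a b) : IsCoprime a (b.natAbs : ℤ) := by
  rcases Int.natAbs_eq b with h1 | h1
  · rwa [← h1]
  · have : ((b.natAbs : ℕ) : ℤ) = -b := by omega
    rw [this]; exact h.neg_right

theorem jac_x {p : ℕ} (hp : p.Prime) (h4 : p % 4 = 1) {x y : ℤ} (h : (p : ℤ) = x ^ 2 + y ^ 2)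
    (hx : x % 2 = 1) : J(x | p) = 1 := by
  rw [jac_abs h4, jacobiSym.quadratic_reciprocity_one_mod_four' (by rw [Nat.odd_iff]; omega) h4]
  refine jac_sq (a := y) ?_ (cop_abs (cop hp h).symm)
  rw [Int.natAbs_dvd, h]
  exact ⟨x, by ring⟩

theorem jac_xy {p : ℕ} (hp : p.Prime) (h4 : p % 4 = 1) {x y : ℤ} (h : (p : ℤ) = x ^ 2 + y ^ 2)
    (hx : x % 2 = 1) (hy : y % 2 = 0) : J(x + y | p) = χ₈ (((x + y).natAbs : ℕ) : ZMod 8) := by
  have hodd : Odd (x + y).natAbs := by rw [Nat.odd_iff]; omega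
  rw [jac_abs h4, jacobiSym.quadratic_reciprocity_one_mod_four' hodd h4]
  have h2 := jacobiSym.at_two hodd
  have hc : IsCoprime (x - y) (x + y) := by
    obtain ⟨u, v, huv⟩ := cop hp h
    -- `x` odd, `gcd(x-y, x+y) = 1`
    have h5 : IsCoprime (2 : ℤ) (x + y) := by
      obtain ⟨t, ht⟩ : ∃ t, x + y = 2 * t + 1 := ⟨(x + y) / 2, by omega⟩
      exact ⟨-t, 1, by rw [ht]; ring⟩
    have h6 : IsCoprime (2 * (x - y)) (x + y) ↔ IsCoprime (x - y) (x + y) := by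
      constructor
      · intro h; exact h.of_mul_left_right
      · intro h; exact h5.mul_left h
    have h7 : IsCoprime (x * 2) (x + y) := by
      refine IsCoprime.mul_left ?_ h5
      refine ⟨u - v, v, ?_⟩
      linear_combination huv
    have h8 : x - y = x * 2 + (x + y) * (-1) := by ring
    rw [h8]
    exact IsCoprime.add_mul_left_left h7 (-1)
  have h3 : J(2 * (p : ℤ) | (x + y).natAbs) = 1 := by
    refine jac_sq (a := x - y) ?_ (cop_abs hc)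
    rw [Int.natAbs_dvd, h]
    exact ⟨x + y, by ring⟩
  rw [jacobiSym.mul_left, h2] at h3
  have h5 : χ₈ ((x + y).natAbs : ZMod 8) * χ₈ ((x + y).natAbs : ZMod 8) = 1 := by
    rcases ZMod.isQuadratic_χ₈ ((x + y).natAbs : ZMod 8) with h6 | h6 | h6
    · rw [h6] at h3; simp at h3
    · rw [h6]; norm_num
    · rw [h6]; norm_num
  generalize χ₈ ((x + y).natAbs : ZMod 8) = c at *
  generalize J((p : ℤ) | (x + y).natAbs) = j at *
  linear_combination c * h3 - j * h5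

/-- in `ZMod p`: `(2 x y)^n = χ₈(|x+y|)` and `x^(2n) = 1` -/
theorem pow_xy {p n : ℕ} (hp : p.Prime) (hpn : p = 4 * n + 1) {x y : ℤ}
    (h : (p : ℤ) = x ^ 2 + y ^ 2) (hx : x % 2 = 1) (hy : y % 2 = 0) :
    (2 * (x : ZMod p) * y) ^ n = ((χ₈ (((x + y).natAbs : ℕ) : ZMod 8) : ℤ) : ZMod p) ∧
      (x : ZMod p) ^ (2 * n) = 1 := by
  have : Fact p.Prime := ⟨hp⟩
  have h1 := jac_x hp (by omega) h hx
  have h2 := jac_xy hp (by omega) h hx hy
  rw [← jacobiSym.legendreSym.to_jacobiSym] at h1 h2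
  have e1 := legendreSym.eq_pow p x
  have e2 := legendreSym.eq_pow p (x + y)
  have hpn2 : p / 2 = 2 * n := by omega
  rw [h1, hpn2] at e1
  rw [h2, hpn2] at e2
  have h0 : (x : ZMod p) ^ 2 + (y : ZMod p) ^ 2 = 0 := by
    have := congrArg (fun t : ℤ => (t : ZMod p)) h
    push_cast at this
    rw [← this]
    exact CharP.cast_eq_zero (ZMod p) p
  constructor
  · rw [e2, pow_mul]
    push_cast
    congr 1
    linear_combination (-1) * h0
  · rw [← e1]; simp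

theorem sq_neg {p : ℕ} {x y : ℤ} (h : (p : ℤ) = x ^ 2 + y ^ 2) :
    (y : ZMod p) ^ 2 = -(x : ZMod p) ^ 2 := by
  have := congrArg (fun t : ℤ => (t : ZMod p)) h
  push_cast at this
  rw [CharP.cast_eq_zero (ZMod p) p] at this
  linear_combination -this

theorem chi_val (m : ℕ) (r : ℕ) (hr : m % 8 = r) (c : ℤ) (h : r = 1 ∨ r = 7 → c = 1)
    (h' : r = 3 ∨ r = 5 → c = -1) (h2 : r = 1 ∨ r = 7 ∨ r = 3 ∨ r = 5) :
    χ₈ (m : ZMod 8) = c := by
  rw [ZMod.χ₈_nat_eq_if_mod_eight, hr]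
  have h1 : ¬ m % 2 = 0 := by omega
  rw [if_neg h1]
  rcases h2 with h2 | h2 | h2 | h2
  · rw [if_pos (Or.inl h2), h (Or.inl h2)]
  · rw [if_pos (Or.inr h2), h (Or.inr h2)]
  · rw [if_neg (by omega), h' (Or.inl h2)]
  · rw [if_neg (by omega), h' (Or.inr h2)]

/-- `p = 8l+1`: `2^(2l) ≡ (-1)^(y/4)` -/
theorem quartic_even {p l : ℕ} (hp : p.Prime) (hpl : p = 8 * l + 1) {x y : ℤ}
    (h : (p : ℤ) = x ^ 2 + y ^ 2) (hx : x % 4 = 1) :
    ∃ σ : ℤ, (σ = 1 ∨ σ = -1) ∧ (σ : ℚ) = (-1 : ℚ) ^ (y / 4) ∧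
      (2 : ZMod p) ^ (2 * l) = (σ : ZMod p) := by
  have : Fact p.Prime := ⟨hp⟩
  obtain ⟨a, ha⟩ : ∃ a, x = 4 * a + 1 := ⟨x / 4, by omega⟩
  have hx2 : x ^ 2 = 16 * a ^ 2 + 8 * a + 1 := by rw [ha]; ring
  have hy4 : y % 4 = 0 := by
    have h1 : y ^ 2 % 8 = 0 := by
      have : (p : ℤ) = 8 * l + 1 := by exact_mod_cast hpl
      omega
    have h2 : y % 8 = 0 ∨ y % 8 = 1 ∨ y % 8 = 2 ∨ y % 8 = 3 ∨ y % 8 = 4 ∨ y % 8 = 5 ∨ y % 8 = 6 ∨
      y % 8 = 7 := by omega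
    rw [pow_two, Int.mul_emod] at h1
    rcases h2 with h2 | h2 | h2 | h2 | h2 | h2 | h2 | h2 <;> rw [h2] at h1 <;> omega
  have hpow := pow_xy (n := 2 * l) hp (by omega) h (by omega) (by omega)
  have e1 : (2 * (x : ZMod p) * y) ^ (2 * l) = (-1) ^ l * 2 ^ (2 * l) := by
    have h1 := sq_neg h
    have h2 := hpow.2
    rw [mul_pow, mul_pow, pow_mul (y : ZMod p), h1]
    have h3 : (-(x : ZMod p) ^ 2) ^ l = (-1) ^ l * (x : ZMod p) ^ (2 * l) := by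
      rw [neg_pow, ← pow_mul]
    rw [h3]
    have h4 : (x : ZMod p) ^ (2 * (2 * l)) = x ^ (2 * l) * x ^ (2 * l) := by
      rw [← pow_add]; congr 1; ring
    rw [h4] at h2
    linear_combination (2 ^ (2 * l) * (-1) ^ l : ZMod p) * h2
  have hsq : ((-1 : ZMod p)) ^ l * (-1) ^ l = 1 := by rw [← mul_pow]; norm_num
  have e2 : (2 : ZMod p) ^ (2 * l) = (-1) ^ l *
      ((χ₈ (((x + y).natAbs : ℕ) : ZMod 8) : ℤ) : ZMod p) := by
    rw [← hpow.1, e1]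
    linear_combination (-(2 : ZMod p) ^ (2 * l)) * hsq
  -- parities
  have hpz : (8 * l + 1 : ℤ) = x ^ 2 + y ^ 2 := by rw [← h]; exact_mod_cast hpl.symm
  obtain ⟨b, hb⟩ : ∃ b, y = 4 * b := ⟨y / 4, by omega⟩
  have hy2 : y ^ 2 = 16 * b ^ 2 := by rw [hb]; ring
  have hl : (l : ℤ) % 2 = a % 2 := by omega
  have hyb : y / 4 = b := by omega
  rcases Int.emod_two_eq_zero_or_one a with h3 | h3 <;>
    rcases Int.emod_two_eq_zero_or_one b with h4 | h4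
  · refine ⟨1, Or.inl rfl, ?_, ?_⟩
    · rw [hyb, Even.neg_one_zpow (Int.even_iff.2 h4)]; norm_num
    · have hl2 : Even l := by rw [Nat.even_iff]; omega
      have hc : χ₈ (((x + y).natAbs : ℕ) : ZMod 8) = 1 :=
        chi_val _ _ rfl 1 (by omega) (by omega) (by omega)
      rw [e2, hl2.neg_one_pow, hc]; norm_num
  · refine ⟨-1, Or.inr rfl, ?_, ?_⟩
    · rw [hyb, Odd.neg_one_zpow (Int.odd_iff.2 h4)]; norm_num
    · have hl2 : Even l := by rw [Nat.even_iff]; omega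
      have hc : χ₈ (((x + y).natAbs : ℕ) : ZMod 8) = -1 :=
        chi_val _ _ rfl (-1) (by omega) (by omega) (by omega)
      rw [e2, hl2.neg_one_pow, hc]; norm_num
  · refine ⟨1, Or.inl rfl, ?_, ?_⟩
    · rw [hyb, Even.neg_one_zpow (Int.even_iff.2 h4)]; norm_num
    · have hl2 : Odd l := by rw [Nat.odd_iff]; omega
      have hc : χ₈ (((x + y).natAbs : ℕ) : ZMod 8) = -1 :=
        chi_val _ _ rfl (-1) (by omega) (by omega) (by omega)
      rw [e2, hl2.neg_one_pow, hc]; norm_num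
  · refine ⟨-1, Or.inr rfl, ?_, ?_⟩
    · rw [hyb, Odd.neg_one_zpow (Int.odd_iff.2 h4)]; norm_num
    · have hl2 : Odd l := by rw [Nat.odd_iff]; omega
      have hc : χ₈ (((x + y).natAbs : ℕ) : ZMod 8) = 1 :=
        chi_val _ _ rfl 1 (by omega) (by omega) (by omega)
      rw [e2, hl2.neg_one_pow, hc]; norm_num

/-- `p = 8l+5`: `2^(2l+1) x ≡ (-1)^((y-2)/4) y` -/
theorem quartic_odd {p l : ℕ} (hp : p.Prime) (hpl : p = 8 * l + 5) {x y : ℤ}
    (h : (p : ℤ) = x ^ 2 + y ^ 2) (hx : x % 4 = 1) :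
    ∃ σ : ℤ, (σ = 1 ∨ σ = -1) ∧ (σ : ℚ) = (-1 : ℚ) ^ ((y - 2) / 4) ∧
      (2 : ZMod p) ^ (2 * l + 1) * x = (σ : ZMod p) * y := by
  have : Fact p.Prime := ⟨hp⟩
  obtain ⟨a, ha⟩ : ∃ a, x = 4 * a + 1 := ⟨x / 4, by omega⟩
  have hx2 : x ^ 2 = 16 * a ^ 2 + 8 * a + 1 := by rw [ha]; ring
  have hy4 : y % 4 = 2 := by
    have h1 : y ^ 2 % 8 = 4 := by
      have : (p : ℤ) = 8 * l + 5 := by exact_mod_cast hpl
      omega
    have h2 : y % 8 = 0 ∨ y % 8 = 1 ∨ y % 8 = 2 ∨ y % 8 = 3 ∨ y % 8 = 4 ∨ y % 8 = 5 ∨ y % 8 = 6 ∨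
      y % 8 = 7 := by omega
    rw [pow_two, Int.mul_emod] at h1
    rcases h2 with h2 | h2 | h2 | h2 | h2 | h2 | h2 | h2 <;> rw [h2] at h1 <;> omega
  have hpow := pow_xy (n := 2 * l + 1) hp (by omega) h (by omega) (by omega)
  have h1 := sq_neg h
  have h2 := hpow.2
  have hx0 : (x : ZMod p) ≠ 0 := by
    intro h0
    rw [h0, zero_pow (by omega)] at h2
    exact zero_ne_one h2
  have hsq : ((-1 : ZMod p)) ^ l * (-1) ^ l = 1 := by rw [← mul_pow]; norm_num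
  have e1 : (2 * (x : ZMod p) * y) ^ (2 * l + 1) * x = (-1) ^ l * 2 ^ (2 * l + 1) * y := by
    rw [mul_pow, mul_pow, pow_succ (y : ZMod p), pow_mul (y : ZMod p), h1]
    have h3 : (-(x : ZMod p) ^ 2) ^ l = (-1) ^ l * (x : ZMod p) ^ (2 * l) := by
      rw [neg_pow, ← pow_mul]
    rw [h3]
    have h4 : (x : ZMod p) ^ (2 * (2 * l + 1)) = x ^ (2 * l + 1) * (x ^ (2 * l) * x) := by
      rw [← pow_succ, ← pow_add]; congr 1; ring
    rw [h4] at h2
    linear_combination (2 ^ (2 * l + 1) * (-1) ^ l * y : ZMod p) * h2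
  have e2 : (2 : ZMod p) ^ (2 * l + 1) * x = -((-1) ^ l *
      ((χ₈ (((x + y).natAbs : ℕ) : ZMod 8) : ℤ) : ZMod p)) * y := by
    rw [← hpow.1]
    apply mul_right_cancel₀ hx0
    linear_combination ((-1) ^ l * (y : ZMod p)) * e1 + (2 : ZMod p) ^ (2 * l + 1) * y ^ 2 * hsq +
      (2 : ZMod p) ^ (2 * l + 1) * h1
  -- parities
  have hpz : (8 * l + 5 : ℤ) = x ^ 2 + y ^ 2 := by rw [← h]; exact_mod_cast hpl.symm
  obtain ⟨b, hb⟩ : ∃ b, y = 4 * b + 2 := ⟨y / 4, by omega⟩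
  have hy2 : y ^ 2 = 16 * b ^ 2 + 16 * b + 4 := by rw [hb]; ring
  have hl : (l : ℤ) % 2 = a % 2 := by omega
  have hyb : (y - 2) / 4 = b := by omega
  rcases Int.emod_two_eq_zero_or_one a with h3 | h3 <;>
    rcases Int.emod_two_eq_zero_or_one b with h4 | h4
  · refine ⟨1, Or.inl rfl, ?_, ?_⟩
    · rw [hyb, Even.neg_one_zpow (Int.even_iff.2 h4)]; norm_num
    · have hl2 : Even l := by rw [Nat.even_iff]; omega
      have hc : χ₈ (((x + y).natAbs : ℕ) : ZMod 8) = -1 :=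
        chi_val _ _ rfl (-1) (by omega) (by omega) (by omega)
      rw [e2, hl2.neg_one_pow, hc]; norm_num
  · refine ⟨-1, Or.inr rfl, ?_, ?_⟩
    · rw [hyb, Odd.neg_one_zpow (Int.odd_iff.2 h4)]; norm_num
    · have hl2 : Even l := by rw [Nat.even_iff]; omega
      have hc : χ₈ (((x + y).natAbs : ℕ) : ZMod 8) = 1 :=
        chi_val _ _ rfl 1 (by omega) (by omega) (by omega)
      rw [e2, hl2.neg_one_pow, hc]; norm_num
  · refine ⟨1, Or.inl rfl, ?_, ?_⟩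
    · rw [hyb, Even.neg_one_zpow (Int.even_iff.2 h4)]; norm_num
    · have hl2 : Odd l := by rw [Nat.odd_iff]; omega
      have hc : χ₈ (((x + y).natAbs : ℕ) : ZMod 8) = 1 :=
        chi_val _ _ rfl 1 (by omega) (by omega) (by omega)
      rw [e2, hl2.neg_one_pow, hc]; norm_num
  · refine ⟨-1, Or.inr rfl, ?_, ?_⟩
    · rw [hyb, Odd.neg_one_zpow (Int.odd_iff.2 h4)]; norm_num
    · have hl2 : Odd l := by rw [Nat.odd_iff]; omega
      have hc : χ₈ (((x + y).natAbs : ℕ) : ZMod 8) = -1 :=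
        chi_val _ _ rfl (-1) (by omega) (by omega) (by omega)
      rw [e2, hl2.neg_one_pow, hc]; norm_num

end Pool.Agent.Helper94.FDC
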