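import Mathlib
import Pool.Agent.Helper94.FD.B
import Pool.Agent.Helper94.FD.C

set_option autoImplicit false

/-!
Assembly for MP_fdcced_nt, Q2.
-/

namespace Pool.Agent.Helper94.FDD

open Finset Pool.Agent.R439.W3 Pool.Agent.R439.S4 Pool.Agent.R439.PL
  Pool.Agent.R439.PL.S4 Pool.Agent.R439.FD Pool.Agent.R439.PL.FD Pool.Agent.Helper94.FD
  Pool.Agent.Helper94.FDB
open Pool.Agent.R439 (ch ch_zero ch_succ)
open Pool.Agent.R488.Cub (gb H)

variable {p n : ℕ} [hp : Fact p.Prime]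

/-- `ι = 2^n (1 + e)` -/
def io (p n : ℕ) : ℚ := 2 ^ n * (1 + ee p n)

theorem one_ee (hpn : p = 4 * n + 1) : U p (1 + ee p n) := by
  refine U_of_not_I (add_mem (one_mem _) (ee_I hpn).mem) fun h => ?_
  apply not_I_one (p := p)
  have := h.sub (ee_I hpn)
  rwa [add_sub_cancel_right] at this

theorem io_U (hpn : p = 4 * n + 1) : U p (io p n) := ((unit2 hpn).pow n).mul (one_ee hpn)

theorem io_sq (hpn : p = 4 * n + 1) : EQ p 2 (io p n ^ 2) ((-1) ^ n) := by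
  have hI := ee_I hpn
  have ms : (-1 : ℚ) ^ n ∈ Zp p := pow_mem (neg_mem (one_mem _)) n
  have h1 := (four_pow hpn).mul (EQ.refl (k := 2) (pow_mem (one_ee hpn).2.1 2))
  have e1 : (4 : ℚ) ^ n * (1 + ee p n) ^ 2 = io p n ^ 2 := by
    rw [io, mul_pow, ← pow_mul, mul_comm n 2, pow_mul]; norm_num
  rw [e1] at h1
  refine h1.trans ⟨h1.2.1, ms, ?_⟩
  have m3 : ((-1 : ℚ) ^ n * (-(3 + 2 * ee p n))) ∈ Zp p := by
    refine mul_mem ms (neg_mem (add_mem ?_ (mul_mem (unit2 hpn).2.1 hI.mem)))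
    exact_mod_cast nat_mem (p := p) 3
  have := (hI.mul hI).mulR m3
  convert this using 1
  ring

theorem two_x {x y : ℤ} (h : (p : ℤ) = x ^ 2 + y ^ 2) :
    U p (x : ℚ) ∧ (y ≠ 0 → U p (y : ℚ)) := by
  have key : ∀ a b : ℤ, (p : ℤ) = a ^ 2 + b ^ 2 → (p : ℤ) ∣ a → (p : ℤ) ∣ b → False := by
    intro a b hab h1 h2
    have hc := Pool.Agent.Helper94.FDC.cop hp.out hab
    obtain ⟨u, v, huv⟩ := hc
    have h3 : (p : ℤ) ∣ 1 := by
      rw [← huv]; exact dvd_add (Dvd.dvd.mul_left h1 u) (Dvd.dvd.mul_left h2 v)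
    exact (pz (p := p)).not_dvd_one h3
  have h2 : ∀ a b : ℤ, (p : ℤ) = a ^ 2 + b ^ 2 → (p : ℤ) ∣ a → (p : ℤ) ∣ b := by
    intro a b hab h1
    have h3 : (p : ℤ) ∣ b ^ 2 := by
      have : b ^ 2 = (p : ℤ) - a ^ 2 := by rw [hab]; ring
      rw [this]; exact dvd_sub (dvd_refl _) (Dvd.dvd.pow h1 two_ne_zero)
    exact (pz (p := p)).dvd_of_dvd_pow h3
  constructor
  · exact U_int fun h1 => key x y h h1 (h2 x y h h1)
  · intro _
    exact U_int fun h1 => key y x (by rw [h]; ring) h1 (h2 y x (by rw [h]; ring) h1)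

theorem half_I (hpn : p = 4 * n + 1) {x : ℚ} (hx : U p x) : I p 1 ((p : ℚ) / (2 * x)) := by
  have := (I_p (p := p)).mulR ((unit2 hpn).mul hx).2.2
  rwa [← div_eq_mul_inv] at this

/-- `S ≡ ι (2x - p/(2x))` -/
theorem SQ2_io (hpn : p = 4 * n + 1) {x y : ℤ} (h : (p : ℤ) = x ^ 2 + y ^ 2) (hx : x % 4 = 1) :
    EQ p 2 (SQ2 p) (io p n * (2 * (x : ℚ) - p / (2 * x))) := by
  have h1 := SQ2_val hpn
  have h2 := CC_val hpn h hx
  have h3 := four_pow hpn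
  have hI := ee_I hpn
  have ms : (-1 : ℚ) ^ n ∈ Zp p := pow_mem (neg_mem (one_mem _)) n
  have mC : ((2 * n).choose n : ℚ) ∈ Zp p := nat_mem _
  have u1 := one_ee hpn
  have h4 := (h3.mul (EQ.refl (k := 2) u1.2.1)).mul h2.symm
  have uX : (2 * (x : ℚ) - p / (2 * x)) ∈ Zp p := h2.2.1
  have e1 : (4 : ℚ) ^ n * (1 + ee p n) * (2 * (x : ℚ) - p / (2 * x)) =
      2 ^ n * (io p n * (2 * (x : ℚ) - p / (2 * x))) := by
    rw [io, show (4 : ℚ) = 2 * 2 by norm_num, mul_pow]; ring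
  rw [e1] at h4
  have mS : SQ2 p ∈ Zp p := (SQ2_QQ2 hpn).1
  refine ⟨mS, mul_mem (io_U hpn).2.1 uX, ?_⟩
  apply ((unit2 hpn).pow n).cancel
  have h5 := (h1.sub h4).2.2
  have h6 := (hI.mul hI).mulR (mul_mem (mul_mem ms mC) (mul_mem u1.2.1 (u4 hpn).2.1))
  have h7 := h5.add h6
  convert h7 using 1
  ring

theorem of_zmod {a b : ℤ} (h : (a : ZMod p) = (b : ZMod p)) : I p 1 ((a : ℚ) - b) := by
  have h1 : (p : ℤ) ∣ a - b := by
    rw [← ZMod.intCast_zmod_eq_zero_iff_dvd]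
    push_cast
    rw [h, sub_self]
  obtain ⟨c, hc⟩ := h1
  refine ⟨c, int_mem c, ?_⟩
  rw [pow_one]
  exact_mod_cast hc

/-- `ι ≡ 2^n (mod p)` -/
theorem io_two (hpn : p = 4 * n + 1) : I p 1 (io p n - 2 ^ n) := by
  have := (ee_I hpn).mulL (pow_mem (unit2 hpn).2.1 n)
  convert this using 1
  rw [io]; ring

/-- Q2 for `p ≡ 1 (mod 8)` -/
theorem final_even {l : ℕ} (hpl : p = 8 * l + 1) {x y : ℤ} (h : (p : ℤ) = x ^ 2 + y ^ 2)
    (hx : x % 4 = 1) :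
    EQ p 2 (SQ2 p) ((-1 : ℚ) ^ (y / 4) * (2 * (x : ℚ) - p / (2 * x))) := by
  have hpn : p = 4 * (2 * l) + 1 := by omega
  obtain ⟨σ, hσ, h1, h2⟩ := Pool.Agent.Helper94.FDC.quartic_even hp.out hpl h hx
  rw [← h1]
  have h3 : I p 1 (((2 ^ (2 * l) : ℤ) : ℚ) - σ) := of_zmod (by push_cast; exact h2)
  push_cast at h3
  have h4 := (io_two hpn).add h3
  have e1 : io p (2 * l) - 2 ^ (2 * l) + (2 ^ (2 * l) - (σ : ℚ)) = io p (2 * l) - σ := by ring
  rw [e1] at h4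
  have hs : (σ : ℚ) ^ 2 = 1 := by
    rcases hσ with h | h <;> rw [h] <;> norm_num
  have h5 := io_sq hpn
  have e2 : (-1 : ℚ) ^ (2 * l) = 1 := by rw [pow_mul]; norm_num
  rw [e2] at h5
  have u2 := unit2 hpn
  have uσ : U p (σ : ℚ) := U_int (by
    intro hd
    have := hp.out.two_le
    rcases hσ with h | h
    · rw [h] at hd; exact (pz (p := p)).not_dvd_one hd
    · rw [h] at hd; exact (pz (p := p)).not_dvd_one ((dvd_neg.1 hd)))
  have u3 : U p (io p (2 * l) + σ) := by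
    refine U_of_not_I (add_mem (io_U hpn).2.1 uσ.2.1) fun h6 => ?_
    have h7 := h6.sub h4
    have e3 : io p (2 * l) + (σ : ℚ) - (io p (2 * l) - σ) = 2 * σ := by ring
    rw [e3] at h7
    exact (u2.mul uσ).not_I one_pos h7
  have h6 : I p 2 (io p (2 * l) - σ) := by
    apply u3.cancel
    have := h5.2.2
    convert this using 1
    linear_combination (-1 : ℚ) * hs
  have h7 := SQ2_io hpn h hx
  have uX : (2 * (x : ℚ) - p / (2 * x)) ∈ Zp p := (CC_val hpn h hx).2.1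
  refine h7.trans ⟨h7.2.1, mul_mem uσ.2.1 uX, ?_⟩
  rw [← sub_mul]
  exact h6.mulR uX

/-- Q2 for `p ≡ 5 (mod 8)` -/
theorem final_odd {l : ℕ} (hpl : p = 8 * l + 5) {x y : ℤ} (h : (p : ℤ) = x ^ 2 + y ^ 2)
    (hx : x % 4 = 1) :
    EQ p 2 (SQ2 p) ((-1 : ℚ) ^ ((y - 2) / 4) * (2 * (y : ℚ) - p / (2 * y))) := by
  have hpn : p = 4 * (2 * l + 1) + 1 := by omega
  obtain ⟨σ, hσ, h1, h2⟩ := Pool.Agent.Helper94.FDC.quartic_odd hp.out hpl h hx
  rw [← h1]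
  have hI := io_two hpn
  have h5 := io_sq hpn
  have e2 : (-1 : ℚ) ^ (2 * l + 1) = -1 := by rw [pow_succ, pow_mul]; norm_num
  rw [e2] at h5
  have h7 := SQ2_io hpn h hx
  have uio := io_U hpn
  generalize hn2 : 2 * l + 1 = n at *
  have h3 : I p 1 (((2 ^ n * x : ℤ) : ℚ) - ((σ * y : ℤ) : ℚ)) := of_zmod (by push_cast; exact h2)
  push_cast at h3
  have hs : (σ : ℚ) ^ 2 = 1 := by
    rcases hσ with h | h <;> rw [h] <;> norm_num
  have u2 := unit2 hpn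
  have uσ : U p (σ : ℚ) := U_int (by
    intro hd
    have := hp.out.two_le
    rcases hσ with h | h
    · rw [h] at hd; exact (pz (p := p)).not_dvd_one hd
    · rw [h] at hd; exact (pz (p := p)).not_dvd_one ((dvd_neg.1 hd)))
  have hy0 : y ≠ 0 := by
    intro h0
    rw [h0] at h
    have hpx : (p : ℤ) = x ^ 2 := by rw [h]; ring
    have hh := pz (p := p)
    rw [hpx] at hh
    exact (not_prime_pow (by norm_num)) hh
  obtain ⟨ux, uy'⟩ := two_x h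
  have uy := uy' hy0
  have hpq : (p : ℚ) = (x : ℚ) ^ 2 + (y : ℚ) ^ 2 := by exact_mod_cast h
  have uX : (2 * (x : ℚ) - p / (2 * x)) ∈ Zp p := (CC_val hpn h hx).2.1
  have uY : (2 * (y : ℚ) - p / (2 * y)) ∈ Zp p := sub_mem (mul_mem u2.2.1 uy.2.1) (half_I hpn uy).mem
  refine h7.trans ⟨h7.2.1, mul_mem uσ.2.1 uY, ?_⟩
  -- `δ = ι x - σ y`
  have h8 : I p 1 (io p n * x - σ * y) := by
    have := (hI.mulR ux.2.1).add h3
    convert this using 1
    ring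
  -- `ι y + σ x ≡ 0 (mod p)`
  have h9 : I p 1 (io p n * y + σ * x) := by
    have a1 := h8.mulL (mul_mem uσ.2.1 uio.2.1)
    have a2 := (h5.2.2.mono (by norm_num : 1 ≤ 2)).mulR (mul_mem uσ.2.1 ux.2.1)
    have a3 := (a2.sub a1)
    convert a3 using 1
    linear_combination (-(io p n * y)) * hs
  apply (((u2.mul u2).mul ux).mul uy).cancel
  have b1 := (h8.mul h8)
  have b2 := h5.2.2.mulR (pow_mem ux.2.1 2)
  have b3 := (I_p (p := p)).mul h9
  -- `2 y δ + σ p ≡ 0 (mod p²)`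
  have b5 : I p 2 (2 * y * (io p n * x - σ * y) + σ * p) := by
    have := (b2.sub b1).mulL uσ.2.1
    convert this using 1
    rw [hpq]
    linear_combination (-(2 * (y : ℚ) * io p n * x - σ * y ^ 2)) * hs
  have b6 := (b5.mulL (mul_mem (mul_mem u2.2.1 u2.2.1) ux.2.1)).sub (b3.mulL u2.2.1)
  convert b6 using 1
  have cx := ux.1
  have cy := uy.1
  field_simp
  ring

end Pool.Agent.Helper94.FDD
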